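import Pool.Agent.RPL.E4

/-!
The Hammersley-Welsh bound with exponent one third on the eleven Archimedean lattices, for every length, and the
corresponding lower bound for the non-intersection probability of two self-avoiding walks.
-/

namespace Pool.Agent.Results.MP_8c6f77_pr.ArchimedeanLattices

open Pool.Agent.SHP.Plane Pool.Agent.ZHW Pool.Agent.RPL.Euc

/-- Let `L = d.pts` be one of the eleven Archimedean lattices, with edges of length one. There is `C > 0` such that for
every `n` the number `a_n` of self-avoiding paths of length `n` is at most `μ_L ^ n * exp (C n ^ (1/3))`, and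
`P_n(w{1,...,n} ∩ w'{0,...,n} = ∅) ≥ exp (- C n ^ (1/3))`. -/
theorem result : ∀ d ∈ eleven, ∃ C : ℝ, 0 < C ∧ ∀ n : ℕ,
    a d.pts n ≤ muL d.pts ^ n * Real.exp (C * (n : ℝ) ^ (1 / 3 : ℝ)) ∧
    Real.exp (-(C * (n : ℝ) ^ (1 / 3 : ℝ))) ≤ P d.pts n :=
  main_eleven

end Pool.Agent.Results.MP_8c6f77_pr.ArchimedeanLattices
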