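import Pool.Agent.BEX.F.Sharp
import Pool.Agent.PLY.Main

/-!
Honeycomb lattice: the event of Q1 for two independent infinite critical self-avoiding walks (bridges) in a half plane
has probability of order `N^(-3/4)`, up to constant factors, at every scale `N`.
-/

namespace Pool.Agent.Results.MP_8c6f77_pr.HalfPlaneExponent

open Pool.Agent.BEX.Half

/-- Let `w`, `w'` be two independent infinite critical bridges from `0`, stopped at their first renewal level `≥ N`
(the weights of the possible values have sum `1`), and let `P N` be the probability that `w{1,...}` and `w'{0,...}` are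
disjoint. There are constants `c, C > 0` with `c N^(-3/4) ≤ P N ≤ C N^(-3/4)` for every `N ≥ 1`. -/
theorem result :
    (∀ N : ℕ, 1 ≤ N → ∑' w : Stopped N, wt w = 1) ∧
    ∃ c C : ℝ, 0 < c ∧ 0 < C ∧ ∀ N : ℕ, 1 ≤ N →
      c * (N : ℝ) ^ (-(3 / 4) : ℝ) ≤ P N ∧ P N ≤ C * (N : ℝ) ^ (-(3 / 4) : ℝ) :=
  Pool.Agent.BEX.F.sharp_of Pool.Agent.HEP.full_hsI

end Pool.Agent.Results.MP_8c6f77_pr.HalfPlaneExponent
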