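import Pool.Agent.EVN.F.Final
import Pool.Agent.EVN.Fin

/-!
Two regular planar lattices, the honeycomb lattice and the lattice `(3,12^2)`: two-sided power-law bounds for the probability
of Q1, for all lengths, and for `a_n / μ_L^n`.
-/

namespace Pool.Agent.Results.MP_8c6f77_pr.PowerLaw

open Pool.Agent.Hhelper64.Two Pool.Agent.RAT

/-- `L` is the honeycomb lattice or the lattice `(3,12^2)`. There are `c, C > 0` such that for all `m, n ≥ 1` the
probability `P2 L m n` that `w{1,...,m}` and `w'{0,...,n}` are disjoint, `w, w'` independent uniform self-avoiding paths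
of lengths `m, n` from `0`, is at least `k^(-C) / C` and at most `C k^(-c)`, `k = min m n` (for `m = n` it is the
probability `P_n` of Q1), and `n^c μ_L^n / C ≤ a_n ≤ C n^C μ_L^n` for every `n ≥ 1`. -/
theorem result (L : Set ℂ) (hL : L = honeycomb ∨ L = truncated) :
    ∃ c C : ℝ, 0 < c ∧ 0 < C ∧
      (∀ n : ℕ, 1 ≤ n → (n : ℝ) ^ c * muL L ^ n / C ≤ a L n ∧ (a L n : ℝ) ≤ C * (n : ℝ) ^ C * muL L ^ n) ∧
      ∀ m n : ℕ, 1 ≤ m → 1 ≤ n →
        ((min m n : ℕ) : ℝ) ^ (-C) / C ≤ P2 L m n ∧ P2 L m n ≤ C * ((min m n : ℕ) : ℝ) ^ (-c) :=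
  Pool.Agent.EVN.power_law Pool.Agent.EVN.goal L hL

end Pool.Agent.Results.MP_8c6f77_pr.PowerLaw
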